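import Pool.Agent.H664.EX.Stm

/-! Project EX of helper664: constants of a derivation of a field of transcendence degree two. -/

set_option autoImplicit false

namespace Pool.Agent.H199.EX

open Pool.Agent.H664.EX
open scoped IntermediateField.algebraAdjoinAdjoin

variable {K : Type} [Field K] [Algebra ℂ K]

/-- algebraic over the field or over the algebra generated by `A` -/
theorem al_iff (A : Set K) (f : K) : Al A f ↔ IsAlgebraic (Algebra.adjoin ℂ A) f :=
  (IsFractionRing.isAlgebraic_iff (Algebra.adjoin ℂ A) (IntermediateField.adjoin ℂ A) K).symm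

theorem der_adjoin (D : Derivation ℂ K K) (A : Set K) (hA : ∀ a ∈ A, D a = 0) (x : K)
    (hx : x ∈ IntermediateField.adjoin ℂ A) : D x = 0 := by
  induction hx using IntermediateField.adjoin_induction with
  | mem x hx => exact hA x hx
  | algebraMap x => exact D.map_algebraMap x
  | add x y _ _ hx hy => rw [map_add, hx, hy, add_zero]
  | inv x _ hx => rw [D.leibniz_inv, hx, smul_zero]
  | mul x y _ _ hx hy => rw [D.leibniz, hx, hy, smul_zero, smul_zero, add_zero]

/-- a derivation which is zero on `A` is zero on the functions algebraic over `ℂ(A)` -/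
theorem der_al (D : Derivation ℂ K K) (A : Set K) (hA : ∀ a ∈ A, D a = 0) (x : K)
    (hx : Al A x) : D x = 0 := by
  have hD := der_adjoin D A hA
  let D' : Derivation (IntermediateField.adjoin ℂ A) K K :=
    { toFun := D
      map_add' := D.map_add
      map_smul' := by
        intro l y
        change D ((l : K) * y) = (l : K) * D y
        rw [D.leibniz, hD l l.2, smul_zero, add_zero, smul_eq_mul]
      map_one_eq_zero' := D.map_one_eq_zero
      leibniz' := D.leibniz }
  have h1 : D' x = D x := rfl
  have hint : IsIntegral (IntermediateField.adjoin ℂ A) x := isAlgebraic_iff_isIntegral.1 hx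
  have h2 : D' (Polynomial.aeval x (minpoly (IntermediateField.adjoin ℂ A) x)) =
      Polynomial.aeval x (Polynomial.derivative (minpoly (IntermediateField.adjoin ℂ A) x)) •
        D' x := D'.map_aeval _ _
  rw [minpoly.aeval, map_zero] at h2
  have h3 : Polynomial.aeval x
      (Polynomial.derivative (minpoly (IntermediateField.adjoin ℂ A) x)) ≠ 0 :=
    (minpoly.irreducible hint).separable.aeval_derivative_ne_zero (minpoly.aeval _ _)
  rw [← h1]
  exact (smul_eq_zero.1 h2.symm).resolve_left h3

/-- the main step -/
theorem const_al (S : Sl K) (hz : S.D S.z = 0) (f : K) (hf : S.D f = 0) : Al {S.z} f := by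
  classical
  by_contra hcon
  -- `z, f` independent
  have htr : Transcendental (Algebra.adjoin ℂ {S.z}) f := fun h => hcon ((al_iff _ _).2 h)
  have hzt : AlgebraicIndependent ℂ (fun _ : Unit => S.z) := by
    have := S.ind.comp (fun _ : Unit => (0 : Fin 2)) (fun _ _ _ => rfl)
    exact this
  have hind : AlgebraicIndependent ℂ (fun o : Option Unit => o.elim f (fun _ : Unit => S.z)) := by
    rw [hzt.option_iff_transcendental]
    have : Set.range (fun _ : Unit => S.z) = {S.z} := Set.range_const
    rw [this]
    exact htr
  -- transcendence degree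
  have hr : Set.range ![S.z, S.t] = {S.z, S.t} := by
    ext a
    simp only [Set.mem_range, Set.mem_insert_iff, Set.mem_singleton_iff, Fin.exists_fin_two]
    simp [eq_comm]
  have hbas : IsTranscendenceBasis ℂ ![S.z, S.t] := by
    rw [isTranscendenceBasis_iff_algebraicIndependent_isAlgebraic, hr]
    exact ⟨S.ind, ⟨fun g => (al_iff _ _).1 (S.alg g)⟩⟩
  have htd : Algebra.trdeg ℂ K = 2 := by
    rw [← hbas.cardinalMk_eq_trdeg]
    simp
  have hbas2 := AlgebraicIndependent.isTranscendenceBasis_of_trdeg_le_of_finite hind
    (by rw [htd]; simp)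
  rw [isTranscendenceBasis_iff_algebraicIndependent_isAlgebraic] at hbas2
  have halg : Al (Set.range (fun o : Option Unit => o.elim f (fun _ : Unit => S.z))) S.t :=
    (al_iff _ _).2 (hbas2.2.isAlgebraic S.t)
  have h0 := der_al S.D _ (by
    rintro a ⟨o, rfl⟩
    rcases o with _ | o
    · exact hf
    · exact hz) S.t halg
  rw [S.Dt] at h0
  exact one_ne_zero h0

/-- JOB DEGEN -/
theorem degen : S_degen := by
  intro K _ _ S hz hv
  refine ⟨const_al S hz _ hv, const_al S hz _ ?_⟩
  rw [S.Dy, hz, mul_zero]

end Pool.Agent.H199.EX
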