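import Mathlib
import Pool.Agent.H525.EX.Stm5

/-!
# Project EX, tasks LAT2P and LAT2 (helper199): weighted sums over pairs in lattices

Weighted version of `Pool/Agent/H353/EX/LATP.lean` for the form `x ^ 4 + (t ^ 2 + t) y ^ 4`.
-/

set_option autoImplicit false

namespace Pool.Agent.H199.EX

open Polynomial
open Pool.Agent.H525.QF
open Pool.Agent.H525.EX
open scoped Classical

namespace LAT2P

section field

variable {K : Type} [Field K]

/-- `F2 v` is squarefree for coprime `v` -/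
theorem F2_sq [CharP K 2] {v : K[X] × K[X]} (h : IsCoprime v.1 v.2) : Squarefree (F2 v) := by
  have h2 : (2 : K[X]) = 0 := by
    have : ((2 : ℕ) : K[X]) = 0 := CharP.cast_eq_zero K[X] 2
    simpa using this
  apply Separable.squarefree
  unfold Separable
  have hd : derivative (F2 v) = v.2 ^ 4 := by
    unfold F2
    rw [derivative_add, derivative_mul, derivative_add, derivative_X, derivative_X_pow,
      derivative_pow, derivative_pow]
    have h4 : (C ((4 : ℕ) : K) : K[X]) = 0 := by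
      rw [map_natCast]
      have : ((4 : ℕ) : K[X]) = 2 * 2 := by push_cast; norm_num
      rw [this, h2, zero_mul]
    have h22 : (C ((2 : ℕ) : K) : K[X]) = 0 := by
      rw [map_natCast]
      have : ((2 : ℕ) : K[X]) = 2 := by push_cast; norm_num
      rw [this, h2]
    rw [h4, h22]
    ring
  rw [hd]
  unfold F2
  exact (h.pow (m := 4) (n := 4)).add_mul_right_left (X ^ 2 + X)

theorem F2_mul (G : K[X]) (v : K[X] × K[X]) : F2 (G * v.1, G * v.2) = G ^ 4 * F2 v := by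
  unfold F2
  ring

/-- the monic greatest common divisor -/
theorem exists_gcd {x y : K[X]} (h : x ≠ 0 ∨ y ≠ 0) :
    ∃ D : K[X], D.Monic ∧ ∀ g, g ∣ D ↔ g ∣ x ∧ g ∣ y := by
  have h0 : EuclideanDomain.gcd x y ≠ 0 := by
    intro h0
    rw [EuclideanDomain.gcd_eq_zero_iff] at h0
    rcases h with h | h
    · exact h h0.1
    · exact h h0.2
  refine ⟨normalize (EuclideanDomain.gcd x y), Polynomial.monic_normalize h0, fun g => ?_⟩
  rw [dvd_normalize_iff]
  exact ⟨fun hg => ⟨hg.trans (EuclideanDomain.gcd_dvd_left x y),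
    hg.trans (EuclideanDomain.gcd_dvd_right x y)⟩, fun hg => EuclideanDomain.dvd_gcd hg.1 hg.2⟩

theorem coprime_of {x y D : K[X]} (hD : D ≠ 0) (h : ∀ g, g ∣ D ↔ g ∣ D * x ∧ g ∣ D * y) :
    IsCoprime x y := by
  rw [← isRelPrime_iff_isCoprime]
  intro c hc hc'
  have h1 : D * c ∣ D := (h _).2 ⟨mul_dvd_mul_left D hc, mul_dvd_mul_left D hc'⟩
  have h2 : D * c ∣ D * 1 := by rwa [mul_one]
  exact isUnit_of_dvd_one ((mul_dvd_mul_iff_left hD).1 h2)

/-- a square divides a square times a squarefree polynomial -/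
theorem dvd_of_sq {g G f : K[X]} (hf : Squarefree f) (hg : g ≠ 0) (h : g ^ 2 ∣ G ^ 2 * f) :
    g ∣ G := by
  obtain ⟨D, hD, hDg⟩ := exists_gcd (x := g) (y := G) (Or.inl hg)
  have hDD := (hDg D).1 (dvd_refl D)
  obtain ⟨⟨g₁, hg₁⟩, ⟨G₁, hG₁⟩⟩ := hDD
  have hcop : IsCoprime g₁ G₁ := coprime_of hD.ne_zero (by
    intro c
    rw [← hg₁, ← hG₁]
    exact hDg c)
  rw [hg₁, hG₁, mul_pow, mul_pow, mul_assoc,
    mul_dvd_mul_iff_left (pow_ne_zero 2 hD.ne_zero)] at h
  have h1 : g₁ ^ 2 ∣ f := (hcop.pow).dvd_of_dvd_mul_left h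
  have h2 : IsUnit g₁ := hf g₁ (by rwa [← sq])
  rw [hg₁]
  rw [h2.mul_right_dvd]
  exact ⟨G₁, hG₁⟩

theorem key {b g G : K[X]} {v : K[X] × K[X]} (hb : Squarefree b) (hg : g ≠ 0)
    (hF : Squarefree (F2 v)) :
    g ^ 2 * b ∣ G ^ 2 * F2 v ↔ ∃ G', G = g * G' ∧ b ∣ F2 (G' * v.1, G' * v.2) := by
  constructor
  · intro h
    obtain ⟨G', rfl⟩ := dvd_of_sq hF hg ((dvd_mul_right _ _).trans h)
    refine ⟨G', rfl, ?_⟩
    rw [mul_pow, mul_assoc, mul_dvd_mul_iff_left (pow_ne_zero 2 hg)] at h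
    rw [F2_mul]
    exact h.trans (mul_dvd_mul_right (pow_dvd_pow G' (by norm_num)) _)
  · rintro ⟨G', rfl, h⟩
    rw [F2_mul] at h
    rw [mul_pow, mul_assoc]
    refine mul_dvd_mul_left _ ?_
    have h1 : b ∣ (G' ^ 2 * F2 v) ^ 2 := by
      refine h.trans ⟨F2 v, ?_⟩
      ring
    exact (hb.dvd_pow_iff_dvd (by norm_num)).1 h1

/-- the top coefficient of a product with a monic polynomial -/
theorem coeff_top {j m : ℕ} {g p : K[X]} (hg : g.Monic) (hj : g.natDegree = j)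
    (hp : p.natDegree ≤ m) : (g * p).coeff (j + m) = p.coeff m := by
  rw [coeff_mul_add_eq_of_natDegree_le hj.le hp]
  have h1 : g.coeff j = 1 := by
    rw [← hj]
    exact hg.coeff_natDegree
  rw [h1, one_mul]

end field

variable {K : Type} [Field K] [Fintype K]

theorem mul_mem_lt {j m : ℕ} {g p : K[X]} (hg : g ∈ mon K j) :
    g * p ∈ lt K (j + m) ↔ p ∈ lt K m := by
  obtain ⟨hgm, hgj⟩ := mem_mon.mp hg
  rw [mem_lt, mem_lt, degree_mul, degree_eq_natDegree hgm.ne_zero, hgj]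
  by_cases hp : p = 0
  · rw [hp, degree_zero]
    simp
  · rw [degree_eq_natDegree hp]
    constructor
    · intro h
      have : j + p.natDegree < j + m := by exact_mod_cast h
      exact_mod_cast (by omega : p.natDegree < m)
    · intro h
      have : p.natDegree < m := by exact_mod_cast h
      exact_mod_cast (by omega : j + p.natDegree < j + m)

theorem mul_mem_mon {j m : ℕ} {g p : K[X]} (hg : g ∈ mon K j) :
    g * p ∈ mon K (j + m) ↔ p ∈ mon K m := by
  obtain ⟨hgm, hgj⟩ := mem_mon.mp hg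
  rw [mem_mon, mem_mon]
  constructor
  · rintro ⟨h1, h2⟩
    have h3 : p.Monic := hgm.of_mul_monic_left h1
    refine ⟨h3, ?_⟩
    rw [hgm.natDegree_mul h3, hgj] at h2
    omega
  · rintro ⟨h1, h2⟩
    refine ⟨hgm.mul h1, ?_⟩
    rw [hgm.natDegree_mul h1, hgj, h2]

/-- the general weighted count -/
theorem gen [CharP K 2] (A B : ℕ → Finset K[X]) (wt : ℕ → K[X] × K[X] → ℝ)
    (hA : ∀ (j m : ℕ) (g p : K[X]), g ∈ mon K j → (g * p ∈ A (j + m) ↔ p ∈ A m))
    (hB : ∀ (j m : ℕ) (g p : K[X]), g ∈ mon K j → (g * p ∈ B (j + m) ↔ p ∈ B m))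
    (hbox : ∀ (n : ℕ) (v : K[X] × K[X]), v ∈ A n ×ˢ B n → (v.1 ≠ 0 ∨ v.2 ≠ 0) ∧
      v.1.natDegree ≤ n ∧ v.2.natDegree ≤ n)
    (hwt : ∀ (j m : ℕ) (g : K[X]) (v : K[X] × K[X]), g ∈ mon K j → v ∈ A m ×ˢ B m →
      wt (j + m) (g * v.1, g * v.2) = wt m v)
    (n i : ℕ) (b g : K[X]) (hb : Squarefree b) (hg : g ∈ mon K i) :
    ∑ j ∈ Finset.range (n + 1), ∑ G ∈ mon K j,
      ∑ v ∈ ((A (n - j) ×ˢ B (n - j)).filter (fun v => IsCoprime v.1 v.2)).filter
        (fun v => g ^ 2 * b ∣ G ^ 2 * F2 v), wt (n - j) v =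
      (if i ≤ n then ∑ v ∈ (A (n - i) ×ˢ B (n - i)).filter (fun v => b ∣ F2 v), wt (n - i) v
        else 0) := by
  obtain ⟨hgm, hgi⟩ := mem_mon.1 hg
  have hg0 := hgm.ne_zero
  -- the case where `g` does not divide `G`
  have hzero : ∀ (j : ℕ) (G : K[X]), ¬ g ∣ G →
      ∑ v ∈ ((A (n - j) ×ˢ B (n - j)).filter (fun v => IsCoprime v.1 v.2)).filter
        (fun v => g ^ 2 * b ∣ G ^ 2 * F2 v), wt (n - j) v = 0 := by
    intro j G hG
    apply Finset.sum_eq_zero
    intro v hv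
    rw [Finset.mem_filter, Finset.mem_filter] at hv
    exact absurd (dvd_of_sq (F2_sq hv.1.2) hg0 ((dvd_mul_right _ _).trans hv.2)) hG
  split_ifs with hin
  swap
  · refine Finset.sum_eq_zero fun j hj => Finset.sum_eq_zero fun G hG => hzero j G ?_
    intro hd
    rw [Finset.mem_range] at hj
    rw [mem_mon] at hG
    have := natDegree_le_of_dvd hd hG.1.ne_zero
    omega
  -- the monic greatest common divisors
  have hγ : ∀ v : K[X] × K[X], ∃ D : K[X], (v.1 ≠ 0 ∨ v.2 ≠ 0) →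
      D.Monic ∧ ∀ g, g ∣ D ↔ g ∣ v.1 ∧ g ∣ v.2 := by
    intro v
    by_cases h : v.1 ≠ 0 ∨ v.2 ≠ 0
    · obtain ⟨D, hD⟩ := exists_gcd h
      exact ⟨D, fun _ => hD⟩
    · exact ⟨0, fun h' => absurd h' h⟩
  choose γ hγ using hγ
  set R := (A (n - i) ×ˢ B (n - i)).filter (fun v => b ∣ F2 v) with hR
  have hγR : ∀ w ∈ R, (γ w).Monic ∧ (∀ g, g ∣ γ w ↔ g ∣ w.1 ∧ g ∣ w.2) ∧
      (γ w).natDegree ≤ n - i := by
    intro w hw
    rw [hR, Finset.mem_filter] at hw
    obtain ⟨h1, h2, h3⟩ := hbox (n - i) w hw.1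
    obtain ⟨h4, h5⟩ := hγ w h1
    refine ⟨h4, h5, ?_⟩
    have h6 := (h5 (γ w)).1 (dvd_refl _)
    rcases h1 with h1 | h1
    · exact (natDegree_le_of_dvd h6.1 h1).trans h2
    · exact (natDegree_le_of_dvd h6.2 h1).trans h3
  have e1 : ∑ w ∈ R, wt (n - i) w = ∑ j ∈ Finset.range (n + 1),
      ∑ w ∈ R.filter (fun w => (g * γ w).natDegree = j), wt (n - i) w := by
    refine (Finset.sum_fiberwise_of_maps_to (g := fun w => (g * γ w).natDegree)
      (fun w hw => ?_) _).symm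
    obtain ⟨h1, h2, h3⟩ := hγR w hw
    rw [Finset.mem_range, hgm.natDegree_mul h1, hgi]
    omega
  rw [e1]
  refine Finset.sum_congr rfl fun j hj => ?_
  have e2 : ∑ w ∈ R.filter (fun w => (g * γ w).natDegree = j), wt (n - i) w = ∑ G ∈ mon K j,
      ∑ w ∈ (R.filter (fun w => (g * γ w).natDegree = j)).filter (fun w => g * γ w = G),
        wt (n - i) w := by
    refine (Finset.sum_fiberwise_of_maps_to (g := fun w => g * γ w) (fun w hw => ?_) _).symm
    rw [Finset.mem_filter] at hw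
    obtain ⟨h1, h2, h3⟩ := hγR w hw.1
    rw [mem_mon]
    exact ⟨hgm.mul h1, hw.2⟩
  rw [e2]
  refine Finset.sum_congr rfl fun G hG => ?_
  rw [Finset.mem_range] at hj
  obtain ⟨hGm, hGj⟩ := mem_mon.1 hG
  by_cases hd : g ∣ G
  swap
  · rw [hzero j G hd]
    symm
    apply Finset.sum_eq_zero
    intro w hw
    rw [Finset.mem_filter] at hw
    exact absurd ⟨_, hw.2.symm⟩ hd
  obtain ⟨G', rfl⟩ := hd
  have hG'm : G'.Monic := hgm.of_mul_monic_left hGm
  have hG'0 := hG'm.ne_zero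
  rw [hgm.natDegree_mul hG'm, hgi] at hGj
  have hG' : G' ∈ mon K G'.natDegree := mem_mon.2 ⟨hG'm, rfl⟩
  have hni : n - i = G'.natDegree + (n - j) := by omega
  refine Finset.sum_bij (fun v _ => (G' * v.1, G' * v.2)) ?_ ?_ ?_ ?_
  · intro v hv
    rw [Finset.mem_filter, Finset.mem_filter, Finset.mem_product] at hv
    obtain ⟨⟨⟨hv1, hv2⟩, hcop⟩, hdv⟩ := hv
    have hw : (G' * v.1, G' * v.2) ∈ A (n - i) ×ˢ B (n - i) := by
      rw [Finset.mem_product, hni]
      exact ⟨(hA _ _ _ _ hG').2 hv1, (hB _ _ _ _ hG').2 hv2⟩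
    obtain ⟨G'', h1, h2⟩ := (key hb hg0 (F2_sq hcop)).1 hdv
    rw [← mul_left_cancel₀ hg0 h1] at h2
    have hwR : (G' * v.1, G' * v.2) ∈ R := by
      rw [hR, Finset.mem_filter]
      exact ⟨hw, h2⟩
    obtain ⟨h3, h4, h5⟩ := hγR _ hwR
    have h6 : γ (G' * v.1, G' * v.2) = G' := by
      refine eq_of_monic_of_associated h3 hG'm (associated_of_dvd_dvd ?_ ?_)
      · obtain ⟨h7, h8⟩ := (h4 _).1 (dvd_refl _)
        obtain ⟨s, t, hst⟩ := hcop
        have h9 : G' = s * (G' * v.1) + t * (G' * v.2) := by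
          linear_combination (-G') * hst
        have h10 : γ (G' * v.1, G' * v.2) ∣ s * (G' * v.1) + t * (G' * v.2) :=
          dvd_add (Dvd.dvd.mul_left h7 s) (Dvd.dvd.mul_left h8 t)
        rwa [← h9] at h10
      · exact (h4 _).2 ⟨dvd_mul_right _ _, dvd_mul_right _ _⟩
    rw [Finset.mem_filter, Finset.mem_filter, h6]
    refine ⟨⟨hwR, ?_⟩, rfl⟩
    rw [hgm.natDegree_mul hG'm, hgi]
    exact hGj
  · intro v _ v' _ hvv
    have h1 : G' * v.1 = G' * v'.1 := congrArg Prod.fst hvv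
    have h2 : G' * v.2 = G' * v'.2 := congrArg Prod.snd hvv
    exact Prod.ext (mul_left_cancel₀ hG'0 h1) (mul_left_cancel₀ hG'0 h2)
  · intro w hw
    rw [Finset.mem_filter, Finset.mem_filter] at hw
    obtain ⟨⟨hwR, -⟩, hwG⟩ := hw
    obtain ⟨h3, h4, h5⟩ := hγR _ hwR
    have h6 : γ w = G' := mul_left_cancel₀ hg0 hwG
    rw [h6] at h4
    obtain ⟨⟨x, hx⟩, ⟨y, hy⟩⟩ := (h4 G').1 (dvd_refl _)
    have hw' : w = (G' * x, G' * y) := Prod.ext hx hy
    have hcop : IsCoprime x y := coprime_of hG'0 (by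
      intro c
      rw [← hx, ← hy]
      exact h4 c)
    have hwR' := hwR
    rw [hR, Finset.mem_filter, Finset.mem_product, hx, hy, hni] at hwR'
    obtain ⟨⟨h7, h8⟩, h9⟩ := hwR'
    refine ⟨(x, y), ?_, hw'.symm⟩
    rw [Finset.mem_filter, Finset.mem_filter, Finset.mem_product]
    refine ⟨⟨⟨(hA _ _ _ _ hG').1 h7, (hB _ _ _ _ hG').1 h8⟩, hcop⟩, ?_⟩
    have hsq : Squarefree (F2 (x, y)) := F2_sq (v := (x, y)) hcop
    rw [hw'] at h9
    exact (key (v := (x, y)) hb hg0 hsq).2 ⟨G', rfl, h9⟩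
  · intro v hv
    rw [Finset.mem_filter, Finset.mem_filter] at hv
    rw [hni]
    exact (hwt _ _ _ _ hG' hv.1.1).symm

end LAT2P

open LAT2P in
/-- **LAT2'** -/
theorem t_lat2' : S_lat2' := by
  intro K _ _ _ ω n i b g _ hb hg
  have h := gen (fun m => mon K m) (fun m => lt K m) (fun m v => ω (v.2.coeff (m - 1)))
    (fun j m g p hg => mul_mem_mon hg) (fun j m g p hg => mul_mem_lt hg)
    (fun m v hv => by
      rw [Finset.mem_product, mem_mon, mem_lt] at hv
      exact ⟨Or.inl hv.1.1.ne_zero, hv.1.2.le, natDegree_le_of_degree_le hv.2.le⟩)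
    (fun j m g v hg hv => by
      rw [Finset.mem_product, mem_lt] at hv
      obtain ⟨hgm, hgj⟩ := mem_mon.1 hg
      show ω ((g * v.2).coeff (j + m - 1)) = ω (v.2.coeff (m - 1))
      rcases Nat.eq_zero_or_pos m with rfl | hm
      · have h0 : v.2 = 0 := by
          rw [← degree_eq_bot]
          have h1 : v.2.degree < 0 := by exact_mod_cast hv.2
          exact Nat.WithBot.lt_zero_iff.1 h1
        rw [h0, mul_zero, coeff_zero, coeff_zero]
      · have h1 : v.2.natDegree ≤ m - 1 := by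
          by_cases h0 : v.2 = 0
          · rw [h0, natDegree_zero]
            exact Nat.zero_le _
          · have h2 := (natDegree_lt_iff_degree_lt h0).2 hv.2
            omega
        have h2 : j + m - 1 = j + (m - 1) := by omega
        rw [h2, coeff_top hgm hgj h1])
    n i b g hb hg
  exact h

open LAT2P in
/-- **LAT2** -/
theorem t_lat2 : S_lat2 := by
  intro K _ _ _ ω n i b g _ hb hg
  have h := gen (fun m => lt K (m + 1)) (fun m => mon K m) (fun m v => ω (v.1.coeff m))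
    (fun j m g p hg => by
      have h1 := mul_mem_lt (m := m + 1) (p := p) hg
      exact h1) (fun j m g p hg => mul_mem_mon hg)
    (fun m v hv => by
      rw [Finset.mem_product, mem_mon, mem_lt] at hv
      refine ⟨Or.inr hv.2.1.ne_zero, ?_, hv.2.2.le⟩
      by_cases h0 : v.1 = 0
      · rw [h0, natDegree_zero]
        exact Nat.zero_le _
      · have h2 := (natDegree_lt_iff_degree_lt h0).2 hv.1
        omega)
    (fun j m g v hg hv => by
      rw [Finset.mem_product, mem_lt] at hv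
      obtain ⟨hgm, hgj⟩ := mem_mon.1 hg
      show ω ((g * v.1).coeff (j + m)) = ω (v.1.coeff m)
      have h1 : v.1.natDegree ≤ m := by
        by_cases h0 : v.1 = 0
        · rw [h0, natDegree_zero]
          exact Nat.zero_le _
        · have h2 := (natDegree_lt_iff_degree_lt h0).2 hv.1
          omega
      rw [coeff_top hgm hgj h1])
    n i b g hb hg
  exact h

end Pool.Agent.H199.EX
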